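import Mathlib

set_option autoImplicit false

namespace Pool.Agent.H.MP_13bb8c_an

open Set Filter Topology MeasureTheory
open scoped symmDiff

noncomputable def gp {T : Type*} [PseudoMetricSpace T] (p y z : T) : ℝ :=
  (dist p y + dist p z - dist y z) / 2

lemma unique_arc {T : Type*} [MetricSpace T]
    (hyp : ∀ p x y z : T, min (gp p x z) (gp p y z) ≤ gp p x y) {x y : T} (hxy : x ≠ y)
    (σ : Icc (0 : ℝ) (dist x y) → T) (hσ : Isometry σ) (h0 : σ ⟨0, le_rfl, dist_nonneg⟩ = x)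
    (h1 : σ ⟨dist x y, dist_nonneg, le_rfl⟩ = y) (γ : Path x y) (hγ : Function.Injective γ) :
    range γ = range σ := by
  have hd : 0 < dist x y := dist_pos.mpr hxy
  have dx : ∀ s, dist x (σ s) = s := by
    intro s
    have := hσ.dist_eq ⟨0, le_rfl, dist_nonneg⟩ s
    rwa [h0, Subtype.dist_eq, Real.dist_eq, zero_sub, abs_neg, abs_of_nonneg s.2.1] at this
  have dy : ∀ s, dist y (σ s) = dist x y - s := by
    intro s
    have := hσ.dist_eq ⟨dist x y, dist_nonneg, le_rfl⟩ s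
    rwa [h1, Subtype.dist_eq, Real.dist_eq, abs_of_nonneg (sub_nonneg.mpr s.2.2)] at this
  have pσ : ∀ s, gp x y (σ s) = s := by intro s; rw [gp, dx, dy]; ring
  have pI : ∀ z, gp x y z ∈ Icc (0 : ℝ) (dist x y) := by
    intro z
    have a1 := dist_triangle_left y z x
    have a2 := dist_triangle x y z
    constructor <;> simp only [gp] <;> linarith
  have loc : ∀ z, z ∉ range σ → ∀ᶠ w in 𝓝 z, gp x y w = gp x y z := by
    intro z hz
    obtain ⟨m, hm1, hm2, hm3⟩ : ∃ m, m ∈ range σ ∧ gp x y m = gp x y z ∧ dist x m = gp x y z :=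
      ⟨σ ⟨_, pI z⟩, mem_range_self _, pσ _, dx _⟩
    have hm : 0 < dist m z := dist_pos.mpr fun h => hz (h ▸ hm1)
    have a1 := hyp x m z y
    have a2 : gp x m y = gp x y z := by
      rw [← hm2]; simp only [gp, dist_comm m y]; ring
    have a3 : gp x z y = gp x y z := by simp only [gp, dist_comm z y]; ring
    rw [a2, a3, min_self] at a1
    have a4 : dist m z ≤ dist x z - gp x y z := by
      have : gp x m z = (dist x m + dist x z - dist m z) / 2 := rfl
      linarith
    filter_upwards [Metric.ball_mem_nhds z hm] with w hw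
    have hw' : dist w z < dist m z := hw
    have b1 : gp x y z < gp x w z := by
      have := dist_triangle x w z
      have e : gp x w z = (dist x w + dist x z - dist w z) / 2 := rfl
      linarith
    have b2 := hyp x y w z
    rw [min_eq_left b1.le] at b2
    have b3 := hyp x y z w
    have b4 : gp x z w = gp x w z := by simp only [gp, dist_comm z w]; ring
    rw [b4] at b3
    rcases min_le_iff.mp b3 with h | h
    · exact le_antisymm h b2
    · exact absurd h (not_le.mpr b1)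
  have cφ : Continuous fun t => gp x y (γ t) := by unfold gp; fun_prop
  have sub1 : range σ ⊆ range γ := by
    rintro _ ⟨s, rfl⟩
    by_contra hs
    have hcl : IsClopen {t | gp x y (γ t) = s} := by
      refine ⟨isClosed_eq cφ continuous_const, isOpen_iff_mem_nhds.mpr fun t ht => ?_⟩
      have hz : γ t ∉ range σ := by
        rintro ⟨s', hs'⟩
        have : (s' : ℝ) = s := by rw [← pσ s', hs']; exact ht
        exact hs ⟨t, by rw [← hs', Subtype.ext this]⟩
      filter_upwards [γ.continuous.continuousAt.eventually (loc _ hz)] with u hu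
      exact hu.trans ht
    have e0 : gp x y (γ 0) = 0 := by simp [gp, dist_comm]
    have e1 : gp x y (γ 1) = dist x y := by simp [gp]
    rcases isClopen_iff.mp hcl with h | h
    · obtain ⟨t, ht⟩ := intermediate_value_univ 0 1 cφ (show (s : ℝ) ∈ Icc _ _ by
        rw [e0, e1]; exact s.2)
      exact eq_empty_iff_forall_notMem.mp h t ht
    · have b0 : gp x y (γ 0) = s := h.ge (mem_univ 0)
      have b1 : gp x y (γ 1) = s := h.ge (mem_univ 1)
      linarith
  refine Subset.antisymm ?_ sub1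
  rintro _ ⟨t, rfl⟩
  have hemb := (γ.continuous.isClosedEmbedding hγ).isInducing
  have : PreconnectedSpace (Icc (0 : ℝ) (dist x y)) := Subtype.preconnectedSpace isPreconnected_Icc
  have hS : IsPreconnected (γ ⁻¹' range σ) := by
    rw [← hemb.isPreconnected_image, image_preimage_eq_of_subset sub1]
    exact isPreconnected_range hσ.continuous
  exact hS.Icc_subset (a := 0) (b := 1) ⟨_, h0.trans γ.source.symm⟩ ⟨_, h1.trans γ.target.symm⟩
    ⟨t.2.1, t.2.2⟩

noncomputable def lev (s : ℝ) : ℕ := ⌊-Real.logb 2 s⌋₊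

lemma le_lev {s : ℝ} (h0 : 0 < s) (h1 : s ≤ 1) (k : ℕ) : k ≤ lev s ↔ s ≤ (1 / 2) ^ k := by
  rw [lev, Nat.le_floor_iff (neg_nonneg.mpr (Real.logb_nonpos one_lt_two h0.le h1)), le_neg,
    Real.logb_le_iff_le_rpow one_lt_two h0, Real.rpow_neg (by norm_num), Real.rpow_natCast,
    one_div, inv_pow]

lemma meas_lev : Measurable lev := by unfold lev Real.logb; fun_prop

noncomputable def cd (x : ℕ → Bool) (k : ℕ) : ℕ := Encodable.encode (PiNat.res x k)

lemma cd_eq {x y : ℕ → Bool} {k : ℕ} : cd x k = cd y k ↔ ∀ ⦃m⦄, m < k → x m = y m := by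
  rw [cd, cd, Encodable.encode_inj, PiNat.res_eq_res]

open Classical in
noncomputable def rr (x y : ℕ → Bool) : ℝ := if x = y then 0 else (1 / 2) ^ (PiNat.firstDiff x y + 1)

lemma rr_nonneg (x y : ℕ → Bool) : 0 ≤ rr x y := by unfold rr; split_ifs <;> positivity

lemma rr_le_one (x y : ℕ → Bool) : rr x y ≤ 1 := by
  unfold rr; split_ifs
  · norm_num
  · exact pow_le_one₀ (by norm_num) (by norm_num)

lemma rr_comm (x y : ℕ → Bool) : rr x y = rr y x := by
  by_cases h : x = y
  · rw [h]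
  · rw [rr, rr, if_neg h, if_neg (Ne.symm h), PiNat.firstDiff_comm x]

lemma rr_le {x y : ℕ → Bool} {n : ℕ} (h : y ∈ PiNat.cylinder x n) : rr x y ≤ (1 / 2) ^ (n + 1) := by
  unfold rr; split_ifs with h1
  · positivity
  · rw [PiNat.mem_cylinder_comm, PiNat.mem_cylinder_iff_le_firstDiff h1] at h
    exact pow_le_pow_of_le_one (by norm_num) (by norm_num) (by omega)

lemma cd_lev {x y : ℕ → Bool} {s : ℝ} (h0 : 0 < s) (h1 : s ≤ 1) :
    cd x (lev s) = cd y (lev s) ↔ rr x y < s := by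
  unfold rr; split_ifs with h
  · simp [h, h0]
  · rw [← not_le, ← le_lev h0 h1, cd_eq, Nat.succ_le_iff, not_lt,
      ← PiNat.mem_cylinder_iff_le_firstDiff h]
    rfl

structure P where
  x : ℕ → Bool
  t : ℝ
  h0 : 0 ≤ t
  h1 : t ≤ 1

def Φ (p : P) : Set (ℝ × ℕ) := {e | p.t < e.1 ∧ e.1 ≤ 1 ∧ e.2 = cd p.x (lev e.1)}

noncomputable def ν : Measure (ℝ × ℕ) := volume.prod Measure.count

lemma meas_cd (x : ℕ → Bool) : Measurable fun s => cd x (lev s) :=
  (measurable_of_countable (cd x)).comp meas_lev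

lemma meas_Φ (p : P) : MeasurableSet (Φ p) :=
  (measurableSet_lt measurable_const measurable_fst).inter
    ((measurableSet_le measurable_fst measurable_const).inter
      (measurableSet_eq_fun measurable_snd ((meas_cd p.x).comp measurable_fst)))

lemma ν_inter (p : P) {A : Set (ℝ × ℕ)} (hA : MeasurableSet A) :
    ν (Φ p ∩ A) = volume {s | p.t < s ∧ s ≤ 1 ∧ (s, cd p.x (lev s)) ∈ A} := by
  have hm : MeasurableSet {s | p.t < s ∧ s ≤ 1 ∧ (s, cd p.x (lev s)) ∈ A} :=
    measurableSet_Ioi.inter (measurableSet_Iic.inter ((measurable_id.prodMk (meas_cd p.x)) hA))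
  rw [ν, Measure.prod_apply ((meas_Φ p).inter hA), ← lintegral_indicator_one hm]
  refine lintegral_congr fun s => ?_
  by_cases h : p.t < s ∧ s ≤ 1 ∧ (s, cd p.x (lev s)) ∈ A
  · have : Prod.mk s ⁻¹' (Φ p ∩ A) = {cd p.x (lev s)} := by
      ext c
      constructor
      · exact fun hc => hc.1.2.2
      · rintro rfl; exact ⟨⟨h.1, h.2.1, rfl⟩, h.2.2⟩
    rw [this, indicator_of_mem (by exact h)]; simp
  · have : Prod.mk s ⁻¹' (Φ p ∩ A) = ∅ := by
      refine eq_empty_of_forall_notMem fun c hc => h ⟨hc.1.1, hc.1.2.1, ?_⟩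
      have h2 : c = cd p.x (lev s) := hc.1.2.2
      rw [← h2]; exact hc.2
    rw [this, indicator_of_notMem (by exact h)]; simp

lemma fin_Φ (p : P) : ν (Φ p) ≠ ⊤ := by
  have := ν_inter p MeasurableSet.univ
  rw [inter_univ] at this
  rw [this]
  exact ((measure_mono (t := Ioc p.t 1) fun s hs => ⟨hs.1, hs.2.1⟩).trans_lt
    measure_Ioc_lt_top).ne

lemma ν_diff (p q : P) : ν.real (Φ p \ Φ q) = max (max p.t q.t) (rr p.x q.x) - p.t := by
  have : {s | p.t < s ∧ s ≤ 1 ∧ (s, cd p.x (lev s)) ∈ (Φ q)ᶜ} =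
      Ioc p.t (max (max p.t q.t) (rr p.x q.x)) := by
    ext s
    simp only [Φ, mem_ofPred_eq, mem_compl_iff, mem_Ioc, le_max_iff]
    constructor
    · rintro ⟨a1, a2, a3⟩
      refine ⟨a1, ?_⟩
      by_contra h
      push Not at h
      exact a3 ⟨h.1.2, a2, (cd_lev (p.h0.trans_lt a1) a2).mpr h.2⟩
    · rintro ⟨a1, a2⟩
      have a3 : s ≤ 1 := by
        rcases a2 with (h | h) | h
        exacts [h.trans p.h1, h.trans q.h1, h.trans (rr_le_one _ _)]
      refine ⟨a1, a3, fun h => ?_⟩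
      have := (cd_lev (p.h0.trans_lt a1) a3).mp h.2.2
      rcases a2 with (h' | h') | h' <;> linarith [h.1]
  rw [Measure.real, sdiff_eq, ν_inter p (meas_Φ q).compl, this, Real.volume_Ioc,
    ENNReal.toReal_ofReal (sub_nonneg.mpr (le_max_of_le_left (le_max_left _ _)))]

noncomputable instance : PseudoMetricSpace P where
  dist p q := ν.real (Φ p ∆ Φ q)
  dist_self p := by simp
  dist_comm p q := by rw [symmDiff_comm]
  dist_triangle p q r := (measureReal_mono (symmDiff_triangle _ (Φ q) _) (measure_union_ne_top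
    (measure_symmDiff_ne_top (fin_Φ p) (fin_Φ q))
    (measure_symmDiff_ne_top (fin_Φ q) (fin_Φ r)))).trans (measureReal_union_le _ _)

lemma dist_def (p q : P) : dist p q = ν.real (Φ p ∆ Φ q) := rfl

lemma dist_eq (p q : P) : dist p q = 2 * max (max p.t q.t) (rr p.x q.x) - p.t - q.t := by
  rw [dist_def, measureReal_symmDiff_eq (meas_Φ p) (meas_Φ q) (fin_Φ p) (fin_Φ q), ν_diff, ν_diff,
    max_comm q.t, rr_comm q.x]
  ring

lemma lam {e e' : ℝ × ℕ} {a b c : P} (h1 : e ∈ Φ a) (h2 : e' ∈ Φ a) (h3 : e ∈ Φ b) (h4 : e' ∉ Φ b)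
    (h5 : e ∉ Φ c) (h6 : e' ∈ Φ c) : False := by
  have key : ∀ {e e' : ℝ × ℕ} {a b : P}, e ∈ Φ a → e' ∈ Φ a → e.1 ≤ e'.1 → e ∈ Φ b → e' ∈ Φ b := by
    intro e e' a b h1 h2 h h3
    refine ⟨h3.1.trans_le h, h2.2.1, h2.2.2.trans ?_⟩
    have p0 := a.h0.trans_lt h1.1
    rw [cd_lev (p0.trans_le h) h2.2.1]
    exact ((cd_lev p0 h1.2.1).mp (h1.2.2.symm.trans h3.2.2)).trans_le h
  rcases le_total e.1 e'.1 with h | h
  · exact h4 (key h1 h2 h h3)
  · exact h5 (key h2 h1 h h6)

lemma gp_eq (p y z : P) : gp p y z = ν.real (Φ p ∆ Φ y ∩ Φ p ∆ Φ z) := by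
  have m1 := (meas_Φ p).symmDiff (meas_Φ y)
  have m2 := (meas_Φ p).symmDiff (meas_Φ z)
  have f1 := measure_symmDiff_ne_top (fin_Φ p) (fin_Φ y)
  have f2 := measure_symmDiff_ne_top (fin_Φ p) (fin_Φ z)
  have e : Φ y ∆ Φ z = (Φ p ∆ Φ y) ∆ (Φ p ∆ Φ z) := by
    rw [symmDiff_symmDiff_symmDiff_comm, symmDiff_self, bot_symmDiff]
  have a1 := measureReal_inter_add_sdiff (μ := ν) (s := Φ p ∆ Φ y) m2 f1
  have a2 := measureReal_inter_add_sdiff (μ := ν) (s := Φ p ∆ Φ z) m1 f2
  rw [inter_comm] at a2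
  rw [gp, dist_def, dist_def, dist_def, e, measureReal_symmDiff_eq m1 m2 f1 f2]
  linarith

lemma nest (p x y z : P) :
    Φ p ∆ Φ x ∩ Φ p ∆ Φ z ⊆ Φ p ∆ Φ y ∨ Φ p ∆ Φ y ∩ Φ p ∆ Φ z ⊆ Φ p ∆ Φ x := by
  refine or_iff_not_imp_left.mpr fun h e' he' => ?_
  obtain ⟨e, ⟨a1, a2⟩, a3⟩ := not_subset.mp h
  obtain ⟨b1, b2⟩ := he'
  by_contra b3
  simp only [mem_symmDiff] at a1 a2 a3 b1 b2 b3
  by_cases c1 : e ∈ Φ p <;> by_cases c2 : e' ∈ Φ p
  · exact lam c1 c2 (b := y) (by tauto) (by tauto) (c := x) (by tauto) (by tauto)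
  · exact lam (a := y) (by tauto) (by tauto) c1 c2 (c := z) (by tauto) (by tauto)
  · exact lam (a := x) (by tauto) (by tauto) (b := z) (by tauto) (by tauto) c1 c2
  · exact lam (e := e) (e' := e') (a := z) (by tauto) (by tauto) (b := x) (by tauto) (by tauto)
      (c := y) (by tauto) (by tauto)

lemma hypP (p x y z : P) : min (gp p x z) (gp p y z) ≤ gp p x y := by
  have f := measure_ne_top_of_subset (inter_subset_left (t := Φ p ∆ Φ y))
    (measure_symmDiff_ne_top (fin_Φ p) (fin_Φ x))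
  simp only [gp_eq]
  rcases nest p x y z with h | h
  · exact min_le_of_left_le (measureReal_mono (fun e he => ⟨he.1, h he⟩) f)
  · exact min_le_of_right_le (measureReal_mono (fun e he => ⟨h he, he.1⟩) f)

lemma cross {p q p' q' : P} (h : dist p q + dist p' q' ≤ dist p q' + dist p' q) :
    ν ((Φ p \ Φ q) ∩ (Φ q' \ Φ p')) = 0 := by
  have hO : (Φ p \ Φ q) ∩ (Φ q' \ Φ p') ⊆ (Φ p ∆ Φ q ∩ Φ p ∆ Φ p') \ Φ p ∆ Φ q' := by
    rintro e ⟨⟨a1, a2⟩, a3, a4⟩
    simp only [Set.mem_sdiff, mem_inter_iff, mem_symmDiff]; tauto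
  have f := measure_ne_top_of_subset (inter_subset_left (t := Φ p ∆ Φ p'))
    (measure_symmDiff_ne_top (fin_Φ p) (fin_Φ q))
  rcases nest p q q' p' with h1 | h1
  · rw [eq_empty_of_forall_notMem fun e he => (hO he).2 (h1 (hO he).1), measure_empty]
  · have a1 := measureReal_inter_add_sdiff (μ := ν) (s := Φ p ∆ Φ q ∩ Φ p ∆ Φ p')
      ((meas_Φ p).symmDiff (meas_Φ q')) f
    have a2 : ν.real (Φ p ∆ Φ q' ∩ Φ p ∆ Φ p') ≤ ν.real (Φ p ∆ Φ q ∩ Φ p ∆ Φ p' ∩ Φ p ∆ Φ q') :=
      measureReal_mono (fun e he => ⟨⟨h1 he, he.2⟩, he.1⟩) (measure_ne_top_of_subset inter_subset_left f)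
    rw [← gp_eq] at a1 a2
    have a3 := measureReal_mono (μ := ν) hO (measure_ne_top_of_subset sdiff_subset f)
    have a4 : ν.real ((Φ p \ Φ q) ∩ (Φ q' \ Φ p')) ≤ 0 := by
      simp only [gp, dist_comm q p', dist_comm q' p'] at a1 a2
      linarith
    exact (measureReal_eq_zero_iff (measure_ne_top_of_subset (inter_subset_left.trans sdiff_subset)
      (fin_Φ p))).mp (le_antisymm a4 measureReal_nonneg)

abbrev T := SeparationQuotient P

noncomputable abbrev mk : P → T := SeparationQuotient.mk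

lemma hypT (p x y z : T) : min (gp p x z) (gp p y z) ≤ gp p x y := by
  obtain ⟨p, rfl⟩ := SeparationQuotient.surjective_mk p
  obtain ⟨x, rfl⟩ := SeparationQuotient.surjective_mk x
  obtain ⟨y, rfl⟩ := SeparationQuotient.surjective_mk y
  obtain ⟨z, rfl⟩ := SeparationQuotient.surjective_mk z
  simpa only [gp, SeparationQuotient.dist_mk] using hypP p x y z

lemma geod (x y : T) : ∃ σ : Icc (0 : ℝ) (dist x y) → T, Isometry σ ∧
    σ ⟨0, le_rfl, dist_nonneg⟩ = x ∧ σ ⟨dist x y, dist_nonneg, le_rfl⟩ = y := by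
  obtain ⟨p, rfl⟩ := SeparationQuotient.surjective_mk x
  obtain ⟨q, rfl⟩ := SeparationQuotient.surjective_mk y
  obtain ⟨M, hM⟩ : ∃ M, M = max (max p.t q.t) (rr p.x q.x) := ⟨_, rfl⟩
  have hd : dist (mk p) (mk q) = 2 * M - p.t - q.t := by rw [SeparationQuotient.dist_mk, dist_eq, hM]
  have m1 : p.t ≤ M := hM ▸ le_max_of_le_left (le_max_left _ _)
  have m2 : q.t ≤ M := hM ▸ le_max_of_le_left (le_max_right _ _)
  have m3 : rr p.x q.x ≤ M := hM ▸ le_max_right _ _
  have m4 : M ≤ 1 := hM ▸ max_le (max_le p.h1 q.h1) (rr_le_one _ _)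
  have m5 : M ≤ p.t ∨ M ≤ q.t ∨ M ≤ rr p.x q.x := by
    rw [← or_assoc, ← le_max_iff, ← le_max_iff, hM]
  have r0 : ∀ x, rr x x = 0 := fun x => by simp [rr]
  let f : Icc (0 : ℝ) (dist (mk p) (mk q)) → P := fun l =>
    if h : l.1 ≤ M - p.t then ⟨p.x, p.t + l, by linarith [p.h0, l.2.1], by linarith⟩
    else ⟨q.x, 2 * M - p.t - l, by linarith [q.h0, l.2.2], by linarith⟩
  have mixed : ∀ a b : ℝ, p.t ≤ a → a ≤ M → q.t ≤ b → b < M → max (max a b) (rr p.x q.x) = M := by
    intro a b a1 a2 b1 b2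
    refine le_antisymm (max_le (max_le a2 b2.le) m3) ?_
    rcases m5 with h | h | h
    · exact le_max_of_le_left (le_max_of_le_left (h.trans a1))
    · linarith
    · exact le_max_of_le_right h
  refine ⟨fun l => mk (f l), Isometry.of_dist_eq fun a b => ?_, ?_, ?_⟩
  · have a0 := a.2.1
    have a1 := a.2.2
    have b0 := b.2.1
    have b1 := b.2.2
    have p0 := p.h0
    have q0 := q.h0
    rw [SeparationQuotient.dist_mk, dist_eq, Subtype.dist_eq, Real.dist_eq]
    by_cases ha : a.1 ≤ M - p.t <;> by_cases hb : b.1 ≤ M - p.t <;>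
      simp only [f, ha, hb, dif_pos, dif_neg, not_false_eq_true, r0]
    · rcases le_total a.1 b.1 with h | h
      · rw [max_eq_right (by linarith : p.t + a.1 ≤ p.t + b.1), max_eq_left (by linarith),
          abs_of_nonpos (by linarith)]; ring
      · rw [max_eq_left (by linarith : p.t + b.1 ≤ p.t + a.1), max_eq_left (by linarith),
          abs_of_nonneg (by linarith)]; ring
    · rw [mixed _ _ (by linarith) (by linarith) (by linarith) (by linarith),
        abs_of_nonpos (by linarith)]; ring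
    · rw [max_comm (2 * M - p.t - a.1), rr_comm,
        mixed _ _ (by linarith) (by linarith) (by linarith) (by linarith),
        abs_of_nonneg (by linarith)]; ring
    · rcases le_total a.1 b.1 with h | h
      · rw [max_eq_left (by linarith : 2 * M - p.t - b.1 ≤ 2 * M - p.t - a.1),
          max_eq_left (by linarith), abs_of_nonpos (by linarith)]; ring
      · rw [max_eq_right (by linarith : 2 * M - p.t - a.1 ≤ 2 * M - p.t - b.1),
          max_eq_left (by linarith), abs_of_nonneg (by linarith)]; ring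
  · simp only [f, sub_nonneg.mpr m1, dif_pos, add_zero]
  · refine eq_of_dist_eq_zero ?_
    rw [SeparationQuotient.dist_mk, dist_eq]
    by_cases h : dist (mk p) (mk q) ≤ M - p.t <;> simp only [f, h, dif_pos, dif_neg, not_false_eq_true]
    · rw [hd] at h ⊢
      rw [max_eq_right (by linarith : p.t + (2 * M - p.t - q.t) ≤ q.t), max_eq_left (by linarith)]
      linarith
    · rw [hd, r0, max_eq_right (by linarith : 2 * M - p.t - (2 * M - p.t - q.t) ≤ q.t),
        max_eq_left q.h0]; ring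

end Pool.Agent.H.MP_13bb8c_an
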