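import Pool.Agent.H.MP_13bb8c_an.A
import Pool.Agent.Lib.helper23.LipDef2

set_option autoImplicit false

namespace Pool.Agent.H.MP_13bb8c_an

open Set Filter Topology MeasureTheory Pool.Agent.Lib.helper23.LF
open scoped symmDiff

section defs
variable {M : Type} [MetricSpace M]

noncomputable def dl (o x : M) : FreeSp o :=
  (⟨delta o x, Submodule.le_topologicalClosure _ (Submodule.subset_span ⟨x, rfl⟩)⟩ : Free o)

noncomputable def mol (o x y : M) : FreeSp o := (dist x y)⁻¹ • (dl o x - dl o y)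

noncomputable def FreeOn (o : M) (A : Set M) : Submodule ℝ (FreeSp o) :=
  (Submodule.span ℝ (dl o '' A)).topologicalClosure

def co {o : M} (γ : FreeSp o) : StrongDual ℝ (Lip0 o) := Subtype.val γ

lemma norm_co {o : M} (γ : FreeSp o) : ‖co γ‖ = ‖γ‖ := rfl

lemma norm_dl (o x y : M) : ‖dl o x - dl o y‖ ≤ dist x y := by
  rw [← norm_co]
  refine ContinuousLinearMap.opNorm_le_bound _ dist_nonneg fun f => ?_
  rw [mul_comm]
  exact (sInf_mem f.2.2).2 x y

lemma dl_o (o : M) : dl o o = 0 := by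
  rw [← norm_le_zero_iff, ← norm_co]
  refine ContinuousLinearMap.opNorm_le_bound _ le_rfl fun f => ?_
  rw [zero_mul]
  exact norm_le_zero_iff.mpr f.2.1

lemma mkLip (o : M) (h : M → ℝ) (h1 : ∀ x y, |h x - h y| ≤ dist x y) :
    ∃ L : FreeSp o →L[ℝ] ℝ, (∀ γ, |L γ| ≤ ‖γ‖) ∧ ∀ x y, L (dl o x - dl o y) = h x - h y := by
  have hc : (1 : ℝ) ∈ consts fun x => h x - h o :=
    ⟨zero_le_one, fun x y => by simpa using h1 x y⟩
  let f : Lip0 o := ⟨fun x => h x - h o, by simp, 1, hc⟩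
  have hf : ‖f‖ ≤ 1 := csInf_le ⟨0, fun _ h => h.1⟩ hc
  have hb : ∀ γ : FreeSp o, |co γ f| ≤ ‖γ‖ := fun γ =>
    ((co γ).le_opNorm f).trans (mul_le_of_le_one_right (norm_nonneg _) hf)
  refine ⟨LinearMap.mkContinuous ⟨⟨fun γ => co γ f, fun _ _ => rfl⟩, fun _ _ => rfl⟩ 1
    (fun γ => by rw [one_mul]; exact hb γ), hb, fun x y => ?_⟩
  show h x - h o - (h y - h o) = _
  ring

lemma dense_span (o : M) (γ : FreeSp o) {ε : ℝ} (hε : 0 < ε) :
    ∃ η ∈ Submodule.span ℝ (range (dl o)), ‖γ - η‖ < ε := by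
  have h1 : co γ ∈ closure (Submodule.span ℝ (range (delta o)) : Set (StrongDual ℝ (Lip0 o))) :=
    Subtype.property γ
  obtain ⟨η', h2, h3⟩ := Metric.mem_closure_iff.mp h1 ε hε
  have : ∃ η ∈ Submodule.span ℝ (range (dl o)), co η = η' := by
    clear h3
    induction h2 using Submodule.span_induction with
    | mem x hx => obtain ⟨x, rfl⟩ := hx; exact ⟨dl o x, Submodule.subset_span ⟨x, rfl⟩, rfl⟩
    | zero => exact ⟨0, zero_mem _, rfl⟩
    | add x y _ _ hx hy =>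
      obtain ⟨a, a1, rfl⟩ := hx
      obtain ⟨b, b1, rfl⟩ := hy
      exact ⟨a + b, add_mem a1 b1, rfl⟩
    | smul c x _ hx =>
      obtain ⟨a, a1, rfl⟩ := hx
      exact ⟨c • a, Submodule.smul_mem _ c a1, rfl⟩
  obtain ⟨η, h4, rfl⟩ := this
  rw [dist_eq_norm] at h3
  exact ⟨η, h4, h3⟩

end defs

noncomputable def o : T := mk ⟨fun _ => false, 1, zero_le_one, le_rfl⟩

noncomputable def d (p : P) : FreeSp o := dl o (mk p)

lemma norm_d (p q : P) : ‖d p - d q‖ ≤ dist p q := by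
  simpa only [SeparationQuotient.dist_mk, d] using norm_dl o (mk p) (mk q)

noncomputable def val (E S : Set (ℝ × ℕ)) (p q : P) : ℝ :=
  ν.real ((Φ p \ Φ q) ∩ E ∩ S) + ν.real (((Φ q \ Φ p) ∩ E) \ S)
    - ν.real ((Φ q \ Φ p) ∩ E ∩ S) - ν.real (((Φ p \ Φ q) ∩ E) \ S)

lemma fin_sub {p : P} {A : Set (ℝ × ℕ)} (h : A ⊆ Φ p) : ν A ≠ ⊤ := measure_ne_top_of_subset h (fin_Φ p)

lemma split_E {E : Set (ℝ × ℕ)} (hE : MeasurableSet E) (p q : P) :
    ν.real (Φ p ∆ Φ q ∩ E) = ν.real ((Φ p \ Φ q) ∩ E) + ν.real ((Φ q \ Φ p) ∩ E) := by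
  rw [Set.symmDiff_def, union_inter_distrib_right, measureReal_union
    (disjoint_sdiff_sdiff.mono inter_subset_left inter_subset_left)
    (((meas_Φ q).diff (meas_Φ p)).inter hE) (fin_sub (p := p) fun _ h => h.1.1)
    (fin_sub (p := q) fun _ h => h.1.1)]

lemma val_le {E S : Set (ℝ × ℕ)} (hE : MeasurableSet E) (hS : MeasurableSet S) (p q : P) :
    |val E S p q| ≤ ν.real (Φ p ∆ Φ q ∩ E) := by
  have a1 := measureReal_inter_add_sdiff (μ := ν) (s := (Φ p \ Φ q) ∩ E) hS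
    (fin_sub (p := p) fun _ h => h.1.1)
  have a2 := measureReal_inter_add_sdiff (μ := ν) (s := (Φ q \ Φ p) ∩ E) hS
    (fin_sub (p := q) fun _ h => h.1.1)
  rw [split_E hE, val, abs_le]
  constructor <;> linarith [measureReal_nonneg (μ := ν) (s := (Φ p \ Φ q) ∩ E ∩ S),
    measureReal_nonneg (μ := ν) (s := ((Φ q \ Φ p) ∩ E) \ S),
    measureReal_nonneg (μ := ν) (s := (Φ q \ Φ p) ∩ E ∩ S),
    measureReal_nonneg (μ := ν) (s := ((Φ p \ Φ q) ∩ E) \ S)]

lemma val_good {E S : Set (ℝ × ℕ)} (hE : MeasurableSet E) (hS : MeasurableSet S) {p q : P}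
    (h1 : Φ p \ Φ q ⊆ S) (h2 : ν ((Φ q \ Φ p) ∩ S) = 0) : val E S p q = ν.real (Φ p ∆ Φ q ∩ E) := by
  have a1 := measureReal_inter_add_sdiff (μ := ν) (s := (Φ p \ Φ q) ∩ E) hS
    (fin_sub (p := p) fun _ h => h.1.1)
  have a2 := measureReal_inter_add_sdiff (μ := ν) (s := (Φ q \ Φ p) ∩ E) hS
    (fin_sub (p := q) fun _ h => h.1.1)
  have a3 : ν.real (((Φ p \ Φ q) ∩ E) \ S) = 0 := by
    rw [sdiff_eq_empty.mpr (inter_subset_left.trans h1), measureReal_empty]
  have a4 : ν.real ((Φ q \ Φ p) ∩ E ∩ S) = 0 := by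
    rw [Measure.real, measure_mono_null (inter_subset_inter_left _ inter_subset_left) h2, ENNReal.toReal_zero]
  rw [split_E hE, val]; linarith

lemma test {E S : Set (ℝ × ℕ)} (hE : MeasurableSet E) (hS : MeasurableSet S) :
    ∃ L : FreeSp o →L[ℝ] ℝ, (∀ γ, |L γ| ≤ ‖γ‖) ∧ ∀ p q, L (d p - d q) = val E S p q := by
  let h : P → ℝ := fun p => ν.real (Φ p ∩ (E ∩ S)) - ν.real (Φ p ∩ (E \ S))
  have k : ∀ (A : Set (ℝ × ℕ)) (p q : P), ν.real (Φ p ∩ A) - ν.real (Φ q ∩ A) =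
      ν.real ((Φ p \ Φ q) ∩ A) - ν.real ((Φ q \ Φ p) ∩ A) := by
    intro A p q
    have a1 := measureReal_inter_add_sdiff (μ := ν) (s := Φ p ∩ A) (meas_Φ q)
      (fin_sub inter_subset_left)
    have a2 := measureReal_inter_add_sdiff (μ := ν) (s := Φ q ∩ A) (meas_Φ p)
      (fin_sub inter_subset_left)
    have e1 : Φ p ∩ A ∩ Φ q = Φ q ∩ A ∩ Φ p := by ext; simp only [mem_inter_iff]; tauto
    have e2 : ∀ p q : P, (Φ p ∩ A) \ Φ q = (Φ p \ Φ q) ∩ A := by
      intro p q; ext; simp only [mem_inter_iff, Set.mem_sdiff]; tauto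
    rw [e2] at a1 a2
    rw [e1] at a1
    linarith
  have hv : ∀ p q, h p - h q = val E S p q := by
    intro p q
    have a1 := k (E ∩ S) p q
    have a2 := k (E \ S) p q
    simp only [h, val, inter_assoc, inter_sdiff_assoc]
    linarith
  have hl : ∀ p q, |h p - h q| ≤ dist p q := fun p q => by
    rw [hv]
    exact (val_le hE hS p q).trans (measureReal_mono inter_subset_left
      (measure_symmDiff_ne_top (fin_Φ p) (fin_Φ q)))
  let r : T → P := Function.surjInv SeparationQuotient.surjective_mk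
  have hr : ∀ z, mk (r z) = z := Function.surjInv_eq _
  have hm : ∀ p, h (r (mk p)) = h p := by
    intro p
    have := hl (r (mk p)) p
    rw [← SeparationQuotient.dist_mk, show SeparationQuotient.mk (r (mk p)) = mk p from hr _,
      dist_self] at this
    exact sub_eq_zero.mp (abs_nonpos_iff.mp this)
  obtain ⟨f, f1, f2⟩ := mkLip o (fun z => h (r z)) (fun x y => by
    have := hl (r x) (r y)
    rwa [← SeparationQuotient.dist_mk, show SeparationQuotient.mk (r x) = x from hr _,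
      show SeparationQuotient.mk (r y) = y from hr _] at this)
  exact ⟨f, f1, fun p q => by rw [d, d, f2, hm, hm, hv]⟩

def leaf {n : ℕ} (v : Fin n → Bool) (b : Bool) : ℕ → Bool :=
  fun i => if h : i < n then v ⟨i, h⟩ else if i = n then b else false

def L0 (x : ℕ → Bool) : P := ⟨x, 0, le_rfl, zero_le_one⟩

noncomputable def ff (n : ℕ) : FreeSp o := ∑ v : Fin n → Bool, (d (L0 (leaf v true)) - d (L0 (leaf v false)))

lemma dist_L0 (x y : ℕ → Bool) : dist (L0 x) (L0 y) = 2 * rr x y := by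
  rw [dist_eq]; simp [L0, rr_nonneg]

lemma leaf_cyl {n : ℕ} (v : Fin n → Bool) (b b' : Bool) : leaf v b ∈ PiNat.cylinder (leaf v b') n := by
  intro i hi; simp [leaf, hi]

lemma norm_pair {n : ℕ} (v : Fin n → Bool) :
    ‖d (L0 (leaf v true)) - d (L0 (leaf v false))‖ ≤ (1 / 2) ^ n := by
  refine (norm_d _ _).trans ?_
  have := rr_le (leaf_cyl v false true)
  rw [dist_L0]; rw [pow_succ] at this; linarith

lemma norm_ff (n : ℕ) : ‖ff n‖ ≤ 1 := by
  refine (norm_sum_le _ _).trans ((Finset.sum_le_sum fun v _ => norm_pair v).trans (le_of_eq ?_))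
  simp

lemma pair_mem {n : ℕ} {v : Fin n → Bool} {e : ℝ × ℕ}
    (h : e ∈ Φ (L0 (leaf v true)) ∆ Φ (L0 (leaf v false))) :
    n < lev e.1 ∧ ∃ b, e ∈ Φ (L0 (leaf v b)) := by
  have k : ∀ b b', e ∈ Φ (L0 (leaf v b)) → e ∉ Φ (L0 (leaf v b')) → n < lev e.1 := by
    intro b b' h1 h2
    by_contra h3
    refine h2 ⟨h1.1, h1.2.1, h1.2.2.trans (cd_eq.mpr fun m hm => leaf_cyl v b b' m (by omega))⟩
  rcases h with h | h
  · exact ⟨k _ _ h.1 h.2, _, h.1⟩
  · exact ⟨k _ _ h.1 h.2, _, h.1⟩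

lemma ff_le {E S : Set (ℝ × ℕ)} (hE : MeasurableSet E) (hS : MeasurableSet S) (hf : ν E ≠ ⊤)
    {f : FreeSp o →L[ℝ] ℝ} (h : ∀ p q, f (d p - d q) = val E S p q) (n : ℕ) : f (ff n) ≤ ν.real E := by
  rw [ff, map_sum]
  simp only [h]
  refine (Finset.sum_le_sum fun v _ => (le_abs_self _).trans (val_le hE hS _ _)).trans ?_
  rw [← measureReal_biUnion_finset ?_ (fun v _ => ((meas_Φ _).symmDiff (meas_Φ _)).inter hE)
    (fun v _ => measure_ne_top_of_subset inter_subset_right hf)]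
  · exact measureReal_mono (iUnion₂_subset fun v _ => inter_subset_right) hf
  · intro v _ w _ hvw
    refine Set.disjoint_left.mpr fun e h1 h2 => hvw ?_
    obtain ⟨a1, b, a2⟩ := pair_mem h1.1
    obtain ⟨-, b', a3⟩ := pair_mem h2.1
    have := cd_eq.mp (a2.2.2.symm.trans a3.2.2)
    funext i
    simpa [L0, leaf] using this (show (i : ℕ) < lev e.1 by omega)

lemma pair_ineq {n : ℕ} {c : Fin n → ℝ} (hc : ∀ i, 0 ≤ c i) {p q : Fin n → P}
    (hn : ‖∑ i, c i • (d (p i) - d (q i))‖ = ∑ i, c i * dist (p i) (q i)) {i j : Fin n} (hij : i ≠ j)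
    (hi : 0 < c i) (hj : 0 < c j) :
    dist (p i) (q i) + dist (p j) (q j) ≤ dist (p i) (q j) + dist (p j) (q i) := by
  obtain ⟨m, hm⟩ : ∃ m, m = min (c i) (c j) := ⟨_, rfl⟩
  have m0 : 0 < m := hm ▸ lt_min hi hj
  let c' : Fin n → ℝ := fun k => c k - (if k = i then m else 0) - (if k = j then m else 0)
  have c0 : ∀ k, 0 ≤ c' k := by
    intro k
    have := min_le_left (c i) (c j)
    have := min_le_right (c i) (c j)
    have := hc k
    simp only [c']
    split_ifs with h1 h2 h2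
    · exact absurd (h1.symm.trans h2) hij
    · rw [h1]; linarith
    · rw [h2]; linarith
    · linarith
  have e1 : ∑ k, c k • (d (p k) - d (q k)) = ∑ k, c' k • (d (p k) - d (q k)) +
      m • ((d (p i) - d (q j)) + (d (p j) - d (q i))) := by
    simp only [c', sub_smul, Finset.sum_sub_distrib, ite_smul, zero_smul, Finset.sum_ite_eq',
      Finset.mem_univ, if_true]
    module
  have e2 : ∑ k, c' k * dist (p k) (q k) = ∑ k, c k * dist (p k) (q k) - m * dist (p i) (q i)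
      - m * dist (p j) (q j) := by
    simp only [c', sub_mul, Finset.sum_sub_distrib, ite_mul, zero_mul, Finset.sum_ite_eq',
      Finset.mem_univ, if_true]
  have a1 : ‖∑ k, c' k • (d (p k) - d (q k))‖ ≤ ∑ k, c' k * dist (p k) (q k) := by
    refine (norm_sum_le _ _).trans (Finset.sum_le_sum fun k _ => ?_)
    rw [norm_smul, Real.norm_of_nonneg (c0 k)]
    exact mul_le_mul_of_nonneg_left (norm_d _ _) (c0 k)
  have a2 : ‖m • ((d (p i) - d (q j)) + (d (p j) - d (q i)))‖ ≤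
      m * (dist (p i) (q j) + dist (p j) (q i)) := by
    rw [norm_smul, Real.norm_of_nonneg m0.le]
    exact mul_le_mul_of_nonneg_left ((norm_add_le _ _).trans (add_le_add (norm_d _ _) (norm_d _ _))) m0.le
  have a3 := norm_add_le (∑ k, c' k • (d (p k) - d (q k))) (m • ((d (p i) - d (q j)) + (d (p j) - d (q i))))
  rw [← e1, hn] at a3
  refine le_of_mul_le_mul_left ?_ m0
  linarith

lemma condA_core {n : ℕ} {c : Fin n → ℝ} (hc : ∀ i, 0 ≤ c i) {p q : Fin n → P}
    (hn : ‖∑ i, c i • (d (p i) - d (q i))‖ = ∑ i, c i * dist (p i) (q i)) (I : Finset (Fin n)) (m : ℕ) :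
    ∑ i ∈ I, c i * dist (p i) (q i) ≤
      ∑ i ∈ I, dist (p i) (q i) + ‖∑ i, c i • (d (p i) - d (q i)) - ff m‖ := by
  let E := ⋃ i ∈ I, Φ (p i) ∆ Φ (q i)
  let S := ⋃ j : {j // 0 < c j}, Φ (p j) \ Φ (q j)
  have hE : MeasurableSet E := I.measurableSet_biUnion fun i _ => (meas_Φ _).symmDiff (meas_Φ _)
  have hS : MeasurableSet S := MeasurableSet.iUnion fun j => (meas_Φ _).diff (meas_Φ _)
  have hf : ν E ≠ ⊤ := (measure_biUnion_lt_top I.finite_toSet fun i _ =>
    (measure_symmDiff_ne_top (fin_Φ _) (fin_Φ _)).lt_top).ne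
  obtain ⟨f, f1, f2⟩ := test hE hS
  have a1 := (ff_le hE hS hf f2 m).trans (measureReal_biUnion_finset_le I _)
  have a2 := (le_abs_self _).trans (f1 (∑ i, c i • (d (p i) - d (q i)) - ff m))
  have a3 : ∀ i, f (c i • (d (p i) - d (q i))) = c i * ν.real (Φ (p i) ∆ Φ (q i) ∩ E) := by
    intro i
    rw [map_smul, smul_eq_mul]
    rcases (hc i).eq_or_lt with h | h
    · rw [← h, zero_mul, zero_mul]
    · rw [f2, val_good hE hS (subset_iUnion (fun j : {j // 0 < c j} => Φ (p j) \ Φ (q j)) ⟨i, h⟩)]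
      rw [inter_iUnion]
      refine measure_iUnion_null fun j => ?_
      by_cases hij : j.1 = i
      · rw [hij, disjoint_sdiff_sdiff.inter_eq, measure_empty]
      · rw [inter_comm]; exact cross (pair_ineq hc hn hij j.2 h)
  have a4 : ∑ i ∈ I, c i * dist (p i) (q i) ≤ f (∑ i, c i • (d (p i) - d (q i))) := by
    rw [map_sum]
    simp only [a3]
    refine le_trans (le_of_eq (Finset.sum_congr rfl fun i hi => ?_))
      (Finset.sum_le_sum_of_subset_of_nonneg (Finset.subset_univ I) fun i _ _ =>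
        mul_nonneg (hc i) measureReal_nonneg)
    have hs : Φ (p i) ∆ Φ (q i) ⊆ E := fun e he => mem_iUnion₂.mpr ⟨i, hi, he⟩
    rw [inter_eq_left.mpr hs, dist_def]
  rw [map_sub] at a2
  simp only [← dist_def] at a1
  linarith

end Pool.Agent.H.MP_13bb8c_an
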