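import Pool.Agent.H.MP_13bb8c_an.B

set_option autoImplicit false

namespace Pool.Agent.H.MP_13bb8c_an

open Set Filter Topology MeasureTheory Pool.Agent.Lib.helper23.LF
open scoped symmDiff

noncomputable def μ : Measure (ℕ → Bool) :=
  Measure.infinitePi fun _ : ℕ => ProbabilityTheory.uniformOn (univ : Set Bool)

instance : IsProbabilityMeasure μ := by
  have : IsProbabilityMeasure (ProbabilityTheory.uniformOn (univ : Set Bool)) :=
    ProbabilityTheory.isProbabilityMeasure_uniformOn finite_univ univ_nonempty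
  unfold μ; infer_instance

lemma μ_cyl (x : ℕ → Bool) (n : ℕ) : μ.real (PiNat.cylinder x n) = (1 / 2) ^ n := by
  have : IsProbabilityMeasure (ProbabilityTheory.uniformOn (univ : Set Bool)) :=
    ProbabilityTheory.isProbabilityMeasure_uniformOn finite_univ univ_nonempty
  rw [Measure.real, PiNat.cylinder_eq_pi, μ, Measure.infinitePi_pi _ (fun _ _ => measurableSet_singleton _)]
  simp only [ProbabilityTheory.uniformOn_univ]
  simp

lemma meas_cyl (x : ℕ → Bool) (n : ℕ) : MeasurableSet (PiNat.cylinder x n) :=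
  (PiNat.isOpen_cylinder _ x n).measurableSet

lemma cont_leaf : Continuous fun x => mk (L0 x) := by
  refine continuous_iff_continuousAt.mpr fun x => Metric.tendsto_nhds.mpr fun ε hε => ?_
  obtain ⟨n, hn⟩ := exists_pow_lt_of_lt_one hε (show (1 / 2 : ℝ) < 1 by norm_num)
  filter_upwards [(PiNat.isOpen_cylinder _ x n).mem_nhds (PiNat.self_mem_cylinder x n)] with y hy
  have := rr_le hy
  rw [SeparationQuotient.dist_mk, dist_L0, rr_comm]
  rw [pow_succ] at this; linarith

lemma exists_cyl {D : Set (ℕ → Bool)} (hD : IsOpen D) {a : ℕ → Bool} (ha : a ∈ D) :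
    ∃ j, PiNat.cylinder a j ⊆ D := by
  obtain ⟨_, ⟨x, j, rfl⟩, h1, h2⟩ := (PiNat.isTopologicalBasis_cylinders (fun _ : ℕ => Bool)).exists_subset_of_mem_open ha hD
  exact ⟨j, (PiNat.mem_cylinder_iff_eq.mp h1).trans_subset h2⟩

lemma near {D : Set (ℕ → Bool)} (hD : IsOpen D) {x a : ℕ → Bool} {n : ℕ}
    (ha : a ∈ PiNat.cylinder x n) (hx : ¬ PiNat.cylinder x n ⊆ D) :
    ∃ a' ∉ D, rr a a' ≤ μ.real (PiNat.cylinder x n ∩ D) := by
  classical
  by_cases h : a ∈ D
  · have e := PiNat.mem_cylinder_iff_eq.mp ha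
    have h1 := Nat.find_spec (exists_cyl hD h)
    have h2 : n < Nat.find (exists_cyl hD h) := by
      by_contra h3
      exact hx (e ▸ (PiNat.cylinder_anti a (not_lt.mp h3)).trans h1)
    obtain ⟨j, hj⟩ : ∃ j, Nat.find (exists_cyl hD h) = j + 1 := ⟨_, (Nat.succ_pred_eq_of_pos (by omega)).symm⟩
    obtain ⟨a', b1, b2⟩ := not_subset.mp (Nat.find_min (exists_cyl hD h) (show j < _ by omega))
    rw [hj] at h1 h2
    refine ⟨a', b2, (rr_le b1).trans ?_⟩
    rw [← μ_cyl a]
    exact measureReal_mono (subset_inter (e ▸ PiNat.cylinder_anti a h2.le) h1)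
  · exact ⟨a, h, by simp [rr]⟩

lemma unif_reg {U : Set T} (hU : IsOpen U) {ε : ℝ} (hε : 0 < ε) :
    ∃ K, IsCompact K ∧ K ⊆ U ∧ ∀ n, ∃ v ∈ FreeOn o (K ∪ Uᶜ), ‖ff n - v‖ ≤ ε := by
  let V := (fun x => mk (L0 x)) ⁻¹' U
  have hV : IsOpen V := hU.preimage cont_leaf
  let K : ℕ → Set (ℕ → Bool) := fun N => {x | PiNat.cylinder x N ⊆ V}
  have hK : ∀ N, IsClosed (K N) := by
    intro N
    rw [← isOpen_compl_iff, isOpen_iff_mem_nhds]
    intro x hx
    filter_upwards [(PiNat.isOpen_cylinder _ x N).mem_nhds (PiNat.self_mem_cylinder x N)] with y hy h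
    exact hx ((PiNat.mem_cylinder_iff_eq.mp hy).symm.trans_subset h)
  have hD : ∀ N, IsOpen (V \ K N) := fun N => hV.sdiff (hK N)
  have ht := tendsto_measure_iInter_atTop (μ := μ) (s := fun N => V \ K N)
    (fun N => (hD N).measurableSet.nullMeasurableSet)
    (fun a b hab x hx => ⟨hx.1, fun h => hx.2 ((PiNat.cylinder_anti x hab).trans h)⟩)
    ⟨0, measure_ne_top _ _⟩
  have he : ⋂ N, V \ K N = ∅ := by
    refine eq_empty_of_forall_notMem fun x hx => ?_
    obtain ⟨j, hj⟩ := exists_cyl hV (mem_iInter.mp hx 0).1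
    exact (mem_iInter.mp hx j).2 hj
  rw [he, measure_empty] at ht
  have ht' := (ENNReal.tendsto_toReal ENNReal.zero_ne_top).comp ht
  obtain ⟨N, hN⟩ := (ht'.eventually (gt_mem_nhds (show _ < ε / 4 by simpa using hε))).exists
  have hN' : μ.real (V \ K N) < ε / 4 := hN
  refine ⟨(fun x => mk (L0 x)) '' K N, (hK N).isCompact.image cont_leaf, ?_, fun n => ?_⟩
  · rintro _ ⟨x, hx, rfl⟩
    exact hx (PiNat.self_mem_cylinder x N)
  have hin : ∀ a ∉ V \ K N, d (L0 a) ∈ FreeOn o ((fun x => mk (L0 x)) '' K N ∪ Uᶜ) := by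
    intro a ha
    refine Submodule.le_topologicalClosure _ (Submodule.subset_span ⟨mk (L0 a), ?_, rfl⟩)
    by_cases h : a ∈ V
    · exact Or.inl ⟨a, by_contra fun h' => ha ⟨h, h'⟩, rfl⟩
    · exact Or.inr h
  have each : ∀ v : Fin n → Bool, ∃ e ∈ FreeOn o ((fun x => mk (L0 x)) '' K N ∪ Uᶜ),
      ‖d (L0 (leaf v true)) - d (L0 (leaf v false)) - e‖ ≤
        4 * μ.real (PiNat.cylinder (leaf v false) n ∩ (V \ K N)) := by
    intro v
    by_cases h : PiNat.cylinder (leaf v false) n ⊆ V \ K N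
    · refine ⟨0, zero_mem _, ?_⟩
      rw [sub_zero, inter_eq_left.mpr h, μ_cyl]
      have : (0 : ℝ) < (1 / 2) ^ n := by positivity
      linarith [norm_pair v]
    · obtain ⟨a, a1, a2⟩ := near (hD N) (leaf_cyl v true false) h
      obtain ⟨b, b1, b2⟩ := near (hD N) (leaf_cyl v false false) h
      refine ⟨d (L0 a) - d (L0 b), sub_mem (hin a a1) (hin b b1), ?_⟩
      rw [sub_sub_sub_comm]
      refine (norm_sub_le _ _).trans ((add_le_add (norm_d _ _) (norm_d _ _)).trans ?_)
      rw [dist_L0, dist_L0]; linarith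
  choose e e1 e2 using each
  refine ⟨∑ v, e v, Submodule.sum_mem _ fun v _ => e1 v, ?_⟩
  rw [ff, ← Finset.sum_sub_distrib]
  refine (norm_sum_le _ _).trans ((Finset.sum_le_sum fun v _ => e2 v).trans ?_)
  rw [← Finset.mul_sum, ← measureReal_biUnion_finset ?_
    (fun v _ => (meas_cyl _ _).inter (hD N).measurableSet)]
  · have := measureReal_mono (μ := μ) (iUnion₂_subset (s := fun (v : Fin n → Bool)
      (_ : v ∈ Finset.univ) => PiNat.cylinder (leaf v false) n ∩ (V \ K N))
      fun v _ => inter_subset_right)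
    linarith
  · intro v _ w _ hvw
    refine Set.disjoint_left.mpr fun x h1 h2 => hvw ?_
    funext i
    simpa [leaf] using (h1.1 i i.2).symm.trans (h2.1 i i.2)

def EE (N : ℕ) : Set (ℝ × ℕ) := {e | N < lev e.1 ∧ ∃ x k, e.2 = cd x (k + 1) ∧ x k = true}

lemma meas_EE (N : ℕ) : MeasurableSet (EE N) :=
  (measurableSet_lt measurable_const (meas_lev.comp measurable_fst)).inter
    (measurable_snd (MeasurableSet.of_discrete (s := {c | ∃ x k, c = cd x (k + 1) ∧ x k = true})))

lemma EE_small (N : ℕ) (p : P) : ν.real (Φ p ∩ EE N) ≤ (1 / 2) ^ N := by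
  rw [Measure.real, ν_inter p (meas_EE N)]
  refine ENNReal.toReal_le_of_le_ofReal (by positivity) ?_
  refine (measure_mono (t := Ioc 0 ((1 / 2) ^ N)) fun s hs => ?_).trans (by simp)
  have h0 := p.h0.trans_lt hs.1
  exact ⟨h0, (le_lev h0 hs.2.1 N).mp hs.2.2.1.le⟩

lemma EE_big {N n : ℕ} (h : N ≤ n) (v : Fin n → Bool) :
    (1 / 2) ^ (n + 2) ≤ val (EE N) univ (L0 (leaf v true)) (L0 (leaf v false)) := by
  have a1 : (Φ (L0 (leaf v false)) \ Φ (L0 (leaf v true))) ∩ EE N = ∅ := by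
    refine eq_empty_of_forall_notMem fun e he => ?_
    obtain ⟨b1, -⟩ := pair_mem (Or.inr he.1)
    obtain ⟨-, x, k, b2, b3⟩ := he.2
    have b4 := Encodable.encode_inj.mp (he.1.1.2.2.symm.trans b2)
    have b5 := congrArg List.length b4
    rw [PiNat.res_length, PiNat.res_length] at b5
    rw [b5, PiNat.res_succ, PiNat.res_succ, b3] at b4
    have b6 := (List.cons.inj b4).1
    simp [L0, leaf, show ¬ k < n by omega] at b6
  have a2 : (1 / 2) ^ (n + 2) ≤ ν.real ((Φ (L0 (leaf v true)) \ Φ (L0 (leaf v false))) ∩ EE N) := by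
    rw [sdiff_eq, inter_assoc, Measure.real, ν_inter _ ((meas_Φ _).compl.inter (meas_EE N))]
    have e : (1 / 2 : ℝ) ^ (n + 2) = (volume (Ioc ((1 / 2 : ℝ) ^ (n + 2)) ((1 / 2) ^ (n + 1)))).toReal := by
      rw [Real.volume_Ioc, ENNReal.toReal_ofReal (sub_nonneg.mpr (pow_le_pow_of_le_one (by norm_num)
        (by norm_num) (by omega)))]; ring
    rw [e]
    refine ENNReal.toReal_mono ((measure_mono (t := Ioc 0 1) fun s hs => ⟨hs.1, hs.2.1⟩).trans_lt
      measure_Ioc_lt_top).ne (measure_mono fun s hs => ?_)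
    have s0 : 0 < s := lt_trans (by positivity) hs.1
    have s1 : s ≤ 1 := hs.2.trans (pow_le_one₀ (by norm_num) (by norm_num))
    have l1 := (le_lev s0 s1 (n + 1)).mpr hs.2
    have l2 := mt (le_lev s0 s1 (n + 2)).mp (not_le.mpr hs.1)
    have l3 : lev s = n + 1 := by omega
    refine ⟨s0, s1, fun h1 => ?_, by show N < lev s; omega, leaf v true, n, by rw [l3]; rfl,
      by simp [leaf]⟩
    have := cd_eq.mp h1.2.2 (show n < lev s by omega)
    simp [L0, leaf] at this
  simpa [val, a1] using a2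

lemma not_wc : ¬ IsCompact (closure (toWeakSpace ℝ (FreeSp o) '' range ff)) := by
  intro hc
  choose L L1 L2 using fun N => test (meas_EE N) MeasurableSet.univ
  obtain ⟨γ, -, hγ⟩ := hc.exists_mapClusterPt (f := atTop) (u := fun n => toWeakSpace ℝ (FreeSp o) (ff n))
    (tendsto_principal.mpr (Eventually.of_forall fun n => subset_closure ⟨_, ⟨n, rfl⟩, rfl⟩))
  have big : ∀ N, 1 / 4 ≤ L N ((toWeakSpace ℝ (FreeSp o)).symm γ) := by
    intro N
    have c : Continuous fun w : WeakSpace ℝ (FreeSp o) => L N ((toWeakSpace ℝ (FreeSp o)).symm w) :=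
      WeakBilin.eval_continuous (topDualPairing ℝ (FreeSp o)).flip (L N)
    refine (isClosed_le continuous_const c).mem_of_mapClusterPt hγ ?_
    filter_upwards [eventually_ge_atTop N] with n hn
    show 1 / 4 ≤ L N (ff n)
    rw [ff, map_sum]
    simp only [L2]
    refine le_trans (le_of_eq ?_) (Finset.sum_le_sum fun v _ => EE_big hn v)
    simp only [Finset.sum_const, Finset.card_univ, Fintype.card_fun, Fintype.card_bool,
      Fintype.card_fin, nsmul_eq_mul]
    push_cast
    rw [pow_add, ← mul_assoc, ← mul_pow]; norm_num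
  obtain ⟨η, h1, h2⟩ := dense_span o ((toWeakSpace ℝ (FreeSp o)).symm γ) (show (0 : ℝ) < 1 / 8 by norm_num)
  have small : Tendsto (fun N => L N η) atTop (𝓝 0) := by
    clear h2
    induction h1 using Submodule.span_induction with
    | mem x hx =>
      obtain ⟨x, rfl⟩ := hx
      obtain ⟨p, rfl⟩ := SeparationQuotient.surjective_mk x
      have t := (tendsto_pow_atTop_nhds_zero_of_lt_one (show (0 : ℝ) ≤ 1 / 2 by norm_num)
        (by norm_num))
      refine squeeze_zero_norm (fun N => ?_) (by simpa using t.add t)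
      have e : dl o (SeparationQuotient.mk p) = d p - d ⟨fun _ => false, 1, zero_le_one, le_rfl⟩ := by
        rw [show d ⟨fun _ => false, 1, zero_le_one, le_rfl⟩ = 0 from dl_o o, sub_zero]; rfl
      rw [e, L2, Real.norm_eq_abs]
      refine (val_le (meas_EE N) MeasurableSet.univ _ _).trans ?_
      rw [split_E (meas_EE N)]
      simpa using add_le_add ((measureReal_mono (inter_subset_inter_left _ sdiff_subset)
        (fin_sub inter_subset_left)).trans (EE_small N p)) ((measureReal_mono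
        (inter_subset_inter_left _ sdiff_subset) (fin_sub inter_subset_left)).trans (EE_small N _))
    | zero => simp
    | add x y _ _ hx hy => simpa using hx.add hy
    | smul c x _ hx => simpa using hx.const_mul c
  obtain ⟨N, hN⟩ := (small.eventually (gt_mem_nhds (show (0 : ℝ) < 1 / 8 by norm_num))).exists
  have := (le_abs_self _).trans (L1 N ((toWeakSpace ℝ (FreeSp o)).symm γ - η))
  rw [map_sub] at this
  linarith [big N]

def IsRTree (T : Type) [MetricSpace T] : Prop :=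
  ∀ x y : T, x ≠ y → ∃ σ : Icc (0 : ℝ) (dist x y) → T, Isometry σ ∧
    σ ⟨0, le_rfl, dist_nonneg⟩ = x ∧ σ ⟨dist x y, dist_nonneg, le_rfl⟩ = y ∧
    ∀ γ : Path x y, Function.Injective γ → range γ = range σ

def CondA {T : Type} [MetricSpace T] (o : T) (W : Set (FreeSp o)) : Prop :=
  ∀ ε : ℝ, 0 < ε → ∃ δ : ℝ, 0 < δ ∧ ∀ (n : ℕ) (a : Fin n → ℝ) (x y : Fin n → T), (∀ i, x i ≠ y i) →
    ‖∑ i, a i • mol o (x i) (y i)‖ = ∑ i, |a i| → ∀ I : Finset (Fin n),
      ∑ i ∈ I, dist (x i) (y i) < δ →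
        ∑ i ∈ I, |a i| ≤ ε + Metric.infDist (∑ i, a i • mol o (x i) (y i)) W

def UnifReg {T : Type} [MetricSpace T] (o : T) (W : Set (FreeSp o)) : Prop :=
  ∀ U : Set T, IsOpen U → ∀ ε : ℝ, 0 < ε → ∃ K : Set T, IsCompact K ∧ K ⊆ U ∧
    ∀ w ∈ W, ∃ v ∈ FreeOn o (K ∪ Uᶜ), ‖w - v‖ ≤ ε

lemma condA : CondA o (range ff) := by
  intro ε hε
  refine ⟨ε, hε, fun n a x y hxy hn I hI => ?_⟩
  choose p hp using fun i => SeparationQuotient.surjective_mk (if 0 ≤ a i then x i else y i)
  choose q hq using fun i => SeparationQuotient.surjective_mk (if 0 ≤ a i then y i else x i)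
  have hd : ∀ i, dist (p i) (q i) = dist (x i) (y i) := by
    intro i
    rw [← SeparationQuotient.dist_mk, hp, hq]
    split_ifs
    exacts [rfl, dist_comm _ _]
  have h0 : ∀ i, dist (x i) (y i) ≠ 0 := fun i => dist_ne_zero.mpr (hxy i)
  have e1 : ∀ i, a i • mol o (x i) (y i) = (|a i| / dist (x i) (y i)) • (d (p i) - d (q i)) := by
    intro i
    rw [d, d, show mk (p i) = _ from hp i, show mk (q i) = _ from hq i, mol, smul_smul, div_eq_mul_inv]
    split_ifs with h
    · rw [abs_of_nonneg h]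
    · rw [abs_of_neg (not_le.mp h)]; module
  have e2 : ∀ i, |a i| = |a i| / dist (x i) (y i) * dist (p i) (q i) := fun i => by
    rw [hd, div_mul_cancel₀ _ (h0 i)]
  simp only [e1] at hn ⊢
  rw [Finset.sum_congr rfl fun i _ => e2 i] at hn ⊢
  rw [← sub_le_iff_le_add', Metric.le_infDist (range_nonempty _)]
  rintro _ ⟨m, rfl⟩
  have := condA_core (fun i => by positivity) hn I m
  simp only [← hd] at hI
  rw [dist_eq_norm]
  linarith

theorem main : ∃ (T : Type) (_ : MetricSpace T) (o : T), IsRTree T ∧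
    ∃ W : Set (FreeSp o), W.Nonempty ∧ Bornology.IsBounded W ∧ CondA o W ∧ UnifReg o W ∧
      ¬ IsCompact (closure (toWeakSpace ℝ (FreeSp o) '' W)) := by
  refine ⟨T, inferInstance, o, fun x y hxy => ?_, range ff, range_nonempty _, ?_, condA, ?_, not_wc⟩
  · obtain ⟨σ, h1, h2, h3⟩ := geod x y
    exact ⟨σ, h1, h2, h3, unique_arc hypT hxy σ h1 h2 h3⟩
  · exact isBounded_iff_forall_norm_le.mpr ⟨1, by rintro _ ⟨n, rfl⟩; exact norm_ff n⟩
  · intro U hU ε hε
    obtain ⟨K, h1, h2, h3⟩ := unif_reg hU hε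
    exact ⟨K, h1, h2, by rintro _ ⟨n, rfl⟩; exact h3 n⟩

end Pool.Agent.H.MP_13bb8c_an
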